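import Pool.Agent.W763.PB.Stm

/-! # Project PB, J2: compression of the powers of the shift -/

set_option autoImplicit false
open scoped InnerProductSpace

namespace W999.PB

open Pool.Agent.W763.PB

theorem j2 : S_R2 → S_Z2 → S_J2 := by
  intro _ hZ2 k b m _ _ hk hb H _ _ _ U n hn
  obtain ⟨hsum, hval⟩ := hZ2 k b m hk hb n hn
  have key : ∀ x y, ⟪Jop k b m U x, (Ush b m ^ n) (Jop k b m U y)⟫_ℂ
        = ((kap k ((n : ℝ) / m) : ℝ) : ℂ) * ⟪x, (U ^ n) y⟫_ℂ := by
    intro x y
    rw [PiLp.inner_apply]
    have hterm : ∀ t : ZMod (b * m), ⟪(Jop k b m U x) t, ((Ush b m ^ n) (Jop k b m U y)) t⟫_ℂ =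
        ((Om k b m t * Om k b m (t + n) : ℝ) : ℂ) * ⟪x, (U ^ n) y⟫_ℂ := by
      intro t
      rw [Ush_pow_apply, Jop_apply, Jop_apply, inner_smul_left, inner_smul_right,
        Complex.conj_ofReal, ← mul_assoc, ← Complex.ofReal_mul]
      by_cases ht : t.val < 2 * m
      · have h2 : (U ^ (t.val + n)) y = (U ^ t.val) ((U ^ n) y) := by
          rw [pow_add]
          rfl
        rw [hval t ht, h2, LinearIsometryEquiv.inner_map_map]
      · have h0 : Om k b m t = 0 := by
          unfold Om
          rw [if_neg ht]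
        rw [h0, zero_mul, Complex.ofReal_zero, zero_mul, zero_mul]
    rw [Finset.sum_congr rfl fun t _ => hterm t, ← Finset.sum_mul, ← Complex.ofReal_sum, hsum]
  refine ⟨key, ?_, ?_⟩
  · intro y
    refine ext_inner_left ℂ fun v => ?_
    rw [ContinuousLinearMap.adjoint_inner_right, key, inner_smul_right]
  · intro y
    refine ext_inner_left ℂ fun v => ?_
    rw [ContinuousLinearMap.adjoint_inner_right, inner_smul_right,
      ← LinearIsometryEquiv.inner_map_map (Ush b m (H := H) ^ n), LinearIsometryEquiv.apply_symm_apply,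
      ← inner_conj_symm, key, map_mul, Complex.conj_ofReal, inner_conj_symm,
      ← LinearIsometryEquiv.inner_map_map (U ^ n) v, LinearIsometryEquiv.apply_symm_apply]

end W999.PB
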